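import Pool.Agent.MWA.StmtsQ

namespace Pool.Agent.MWA.H47

open Pool.Agent.Helper14_MV Pool.Agent.Helper2_MV Pool.Agent.MVO Pool.Agent.MWL Pool.Agent.MWS
open Pool.Agent.MWA

theorem rp1 (h1 : MWL.TrnStmt) (h2 : AbpStmt) (h3 : RcpStmt) : Rp1Stmt := by
  intro n β hβ hr hS θ hle _ k a b i j ha hb hai hbi hji habs hn
  rcases h3 n β hβ hr hS.j θ hle k a b i j ha hb hai hbi hji habs with h | ⟨h, -⟩
  · exact Or.inl h
  · exfalso
    have hpos : 1 ≤ n := hβ.pos
    rcases Nat.lt_or_ge j i with hlt | hge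
    · have h4 : AbN n β k (ad n a i) (if (0 : ℕ) = 0 then j else i) := by
        refine (h2 n β).1 0 2 k j i 0 (ad n a i) (Nat.zero_le _) hS.g hlt.le hai.1 fun t _ => ?_
        unfold ad
        by_cases ht : t = i
        · simp [ht]; omega
        · simp [ht]
      rw [if_pos rfl] at h4
      exact hn (((h1 n (FC.ofFIC β) k a j).1 (ad n a i) h).mpr h4)
    · have e : j = i := le_antisymm hji hge
      exact hn (e ▸ h)

end Pool.Agent.MWA.H47
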